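import Pool.Agent.W902.C6.Stm

/-!
# C6-CARD: cardinality of the standard configuration
-/

set_option autoImplicit false

open Pool.Agent.H800R3 Filter

namespace Pool.Agent.W597.C6.Card

open Pool.Agent.W902.C6

open Classical in
theorem inter (A T : Finset ℝ) :
    ((A.image (fun s => (s, (1 : ℝ)))) ∩ (T.image (fun t => ((1 : ℝ), t)))).card =
      if 1 ∈ A ∧ 1 ∈ T then 1 else 0 := by
  by_cases h : 1 ∈ A ∧ 1 ∈ T
  · rw [if_pos h, Finset.card_eq_one]
    refine ⟨((1 : ℝ), (1 : ℝ)), ?_⟩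
    ext ⟨x, y⟩
    rw [Finset.mem_inter, Finset.mem_image, Finset.mem_image, Finset.mem_singleton]
    constructor
    · rintro ⟨⟨s, hs, h1⟩, t, ht, h2⟩
      rw [Prod.mk.injEq] at h1 h2 ⊢
      exact ⟨h2.1.symm, h1.2.symm⟩
    · intro hxy
      rw [Prod.mk.injEq] at hxy
      obtain ⟨rfl, rfl⟩ := hxy
      exact ⟨⟨1, h.1, rfl⟩, 1, h.2, rfl⟩
  · rw [if_neg h, Finset.card_eq_zero, Finset.eq_empty_iff_forall_notMem]
    rintro ⟨x, y⟩ hxy
    rw [Finset.mem_inter, Finset.mem_image, Finset.mem_image] at hxy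
    obtain ⟨⟨s, hs, h1⟩, t, ht, h2⟩ := hxy
    rw [Prod.mk.injEq] at h1 h2
    refine h ⟨?_, ?_⟩
    · rw [h2.1, ← h1.1]
      exact hs
    · rw [h1.2, ← h2.2]
      exact ht

theorem main : S_card := by
  classical
  intro e A T
  have h1 : (A.image (fun s => (s, (1 : ℝ)))).card = A.card :=
    Finset.card_image_of_injective _ fun a b h => (Prod.mk.inj h).1
  have h2 : (T.image (fun t => ((1 : ℝ), t))).card = T.card :=
    Finset.card_image_of_injective _ fun a b h => (Prod.mk.inj h).2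
  have h3 := Finset.card_union_add_card_inter (A.image (fun s => (s, (1 : ℝ))))
    (T.image (fun t => ((1 : ℝ), t)))
  rw [h1, h2, inter] at h3
  have h4 : ((0 : ℝ), (0 : ℝ)) ∉ (A.image (fun s => (s, (1 : ℝ))) ∪ T.image (fun t => ((1 : ℝ), t))) := by
    rw [Finset.mem_union, Finset.mem_image, Finset.mem_image]
    rintro (⟨s, -, h⟩ | ⟨t, -, h⟩)
    · have := (Prod.mk.inj h).2
      norm_num at this
    · have := (Prod.mk.inj h).1
      norm_num at this
  have h5 : (std e A T).card = e.toNat +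
      (A.image (fun s => (s, (1 : ℝ))) ∪ T.image (fun t => ((1 : ℝ), t))).card := by
    unfold std
    cases e with
    | false =>
      rw [if_neg (by simp), Finset.empty_union]
      simp
    | true =>
      rw [if_pos rfl, ← Finset.insert_eq, Finset.card_insert_of_notMem (by convert h4)]
      simp only [Bool.toNat_true]
      rw [add_comm]
  rw [h5]
  have h6 : (if (1 : ℝ) ∈ A ∧ (1 : ℝ) ∈ T then 1 else 0 : ℕ) = (if (1 : ℝ) ∈ A ∧ (1 : ℝ) ∈ T then 1 else 0 : ℕ) := rfl
  have h7 : (A.image (fun s => (s, (1 : ℝ))) ∪ T.image (fun t => ((1 : ℝ), t))).card +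
    (if (1 : ℝ) ∈ A ∧ (1 : ℝ) ∈ T then 1 else 0) = A.card + T.card := by
    convert h3
  rw [add_assoc, add_assoc, ← h7]

end Pool.Agent.W597.C6.Card
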